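import Pool.Agent.helper97.KR.Spec

/-! # Row kr:BB -/

set_option autoImplicit false

namespace Pool.Agent.helper97.KR

open Finset Classical

noncomputable section

theorem BB_ins_card (hSP3 : SP3_stmt) {V E : Type} (ends : E → Sym2 V) (S : Finset V) (F : Finset E)
    (x : V) (hG : G3 ends S F) (hx : x ∈ S)
    (hadj : ∀ v ∈ S, v ≠ x → ∃ e ∈ F, ends e = s(x, v)) (U : Finset V) (hU : U ⊆ S.erase x)
    (ht : (ins ends F U).card + 3 = 3 * U.card) : U.card ≤ 3 := by
  have hxU : x ∉ U := fun h => (Finset.mem_erase.mp (hU h)).1 rfl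
  have hUS : insert x U ⊆ S := by
    intro v hv
    rcases Finset.mem_insert.mp hv with h | h
    · rw [h]; exact hx
    · exact (Finset.mem_erase.mp (hU h)).2
  have h1 := (hSP3 V E ends S F hG).2 (insert x U) hUS ⟨x, Finset.mem_insert_self _ _⟩
  rw [Finset.card_insert_of_notMem hxU] at h1
  have hch : ∀ u : V, ∃ e : E, u ∈ U → (e ∈ F ∧ ends e = s(x, u)) := by
    intro u
    by_cases hu : u ∈ U
    · have h2 := Finset.mem_erase.mp (hU hu)
      obtain ⟨e, he, he2⟩ := hadj u h2.2 h2.1
      exact ⟨e, fun _ => ⟨he, he2⟩⟩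
    · obtain ⟨v, hv⟩ := hG.ne
      by_cases hE : Nonempty E
      · obtain ⟨e⟩ := hE
        exact ⟨e, fun h => absurd h hu⟩
      · exfalso
        have hF : F = ∅ := by
          rw [Finset.eq_empty_iff_forall_notMem]
          intro e _
          exact hE ⟨e⟩
        have hI : ins ends F U = ∅ := by
          rw [Finset.eq_empty_iff_forall_notMem]
          intro e _
          exact hE ⟨e⟩
        rw [hI, Finset.card_empty] at ht
        have h3 := (hSP3 V E ends S F hG).1
        rw [hF, Finset.card_empty] at h3
        have h4 : (1 : ℕ) ≤ U.card := by omega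
        obtain ⟨w, hw⟩ := Finset.card_pos.mp h4
        have h5 := Finset.mem_erase.mp (hU hw)
        obtain ⟨e, _⟩ := hadj w h5.2 h5.1
        exact hE ⟨e⟩
  choose g hg using hch
  have hinj : Set.InjOn g (U : Set V) := by
    intro u hu u' hu' h
    have h2 := (hg u hu).2
    rw [h, (hg u' hu').2] at h2
    exact (Sym2.congr_right.mp h2).symm
  have hdisj : Disjoint (ins ends F U) (U.image g) := by
    rw [Finset.disjoint_left]
    intro e he he'
    obtain ⟨u, hu, rfl⟩ := Finset.mem_image.mp he'
    have h2 := (Finset.mem_filter.mp he).2 x (by rw [(hg u hu).2]; exact Sym2.mem_mk_left _ _)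
    exact hxU h2
  have hsub : ins ends F U ∪ U.image g ⊆ ins ends F (insert x U) := by
    intro e he
    rcases Finset.mem_union.mp he with h | h
    · have h2 := Finset.mem_filter.mp h
      exact Finset.mem_filter.mpr ⟨h2.1, fun v hv => Finset.mem_insert_of_mem (h2.2 v hv)⟩
    · obtain ⟨u, hu, rfl⟩ := Finset.mem_image.mp h
      refine Finset.mem_filter.mpr ⟨(hg u hu).1, ?_⟩
      intro v hv
      rw [(hg u hu).2, Sym2.mem_iff] at hv
      rcases hv with hv | hv
      · rw [hv]; exact Finset.mem_insert_self _ _
      · rw [hv]; exact Finset.mem_insert_of_mem hu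
  have h2 := Finset.card_le_card hsub
  rw [Finset.card_union_of_disjoint hdisj, Finset.card_image_of_injOn hinj] at h2
  omega

theorem BB_main (hTWO : TWO_stmt) (hST : ST_stmt) (hSP3 : SP3_stmt) (hTG : TG_stmt)
    (hTSK : TSK_stmt) (hAA : AA_stmt) (hCON : CON_stmt) (V E : Type) (n : ℕ) :
    ∀ (ends : E → Sym2 V) (S : Finset V) (F : Finset E) (x : V), S.card = n → G3 ends S F → x ∈ S →
      (∀ v ∈ S, v ≠ x → 5 ≤ dgr ends F v → ∃ e ∈ F, ends e = s(x, v)) → KO ends S F := by
  induction n using Nat.strong_induction_on with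
  | _ n ih =>
    intro ends S F x hn hG hx hadj
    by_cases h1 : S.card ≤ 1
    · intro h2
      omega
    by_cases h2 : S.card = 2
    · exact hTWO V E ends S F hG h2
    have h3 : 3 ≤ S.card := by omega
    by_cases h4 : ∃ v ∈ S, v ≠ x ∧ dgr ends F v ≤ 4
    · obtain ⟨v, hv, hvx, hd⟩ := h4
      refine hST V E ends S F v hG h3 hv hd ?_
      intro ends' F' hG' hd' ha'
      have hc : (S.erase v).card < n := by
        rw [Finset.card_erase_of_mem hv]
        omega
      refine ih _ hc ends' (S.erase v) F' x rfl hG' (Finset.mem_erase.mpr ⟨hvx.symm, hx⟩) ?_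
      intro w hw hwx hw5
      have hwS := Finset.mem_erase.mp hw
      have h5 := hadj w hwS.2 hwx (le_trans hw5 (hd' w hw))
      exact ha' x (Finset.mem_erase.mpr ⟨hvx.symm, hx⟩) w hw h5
    · have hadj' : ∀ v ∈ S, v ≠ x → ∃ e ∈ F, ends e = s(x, v) := by
        intro v hv hvx
        refine hadj v hv hvx ?_
        by_contra hcon
        exact h4 ⟨v, hv, hvx, by omega⟩
      by_cases h5 : ∀ U ⊆ S.erase x, 2 ≤ U.card → (ins ends F U).card + 4 ≤ 3 * U.card
      · exact hCON V E ends S F x hG hx hadj' h5
      · push Not at h5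
        obtain ⟨U, hU, hU2, hU4⟩ := h5
        have hUS : U ⊆ S := fun v hv => (Finset.mem_erase.mp (hU hv)).2
        have hxU : x ∉ U := fun h => (Finset.mem_erase.mp (hU h)).1 rfl
        have hUne : U.Nonempty := Finset.card_pos.mp (by omega)
        have h6 := (hSP3 V E ends S F hG).2 U hUS hUne
        have htight : (ins ends F U).card + 3 = 3 * U.card := by omega
        have hU3 := BB_ins_card hSP3 ends S F x hG hx hadj' U hU htight
        obtain ⟨t, ht⟩ := hUne
        obtain ⟨hG1, hG2⟩ := hTG V E ends S U t F hG hUS ht htight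
        have hUlt : U.card < S.card := by
          have := Finset.card_le_card hU
          rw [Finset.card_erase_of_mem hx] at this
          omega
        refine hTSK V E ends S U t F hUS ht hU2 hUlt ?_ ?_
        · refine hAA V E ends U (ins ends F U) hG1 ?_
          exact le_trans (Finset.card_filter_le _ _) (by omega)
        · have htn : t ∉ S \ U := fun h => (Finset.mem_sdiff.mp h).2 ht
          have hc : (cS S U t).card < n := by
            unfold cS
            rw [Finset.card_insert_of_notMem htn, Finset.card_sdiff_of_subset hUS]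
            omega
          have hxc : x ∈ cS S U t := by
            unfold cS
            exact Finset.mem_insert_of_mem (Finset.mem_sdiff.mpr ⟨hx, hxU⟩)
          refine ih _ hc (cE ends U t) (cS S U t) (F \ ins ends F U) x rfl hG2 hxc ?_
          intro v hv hvx _
          have hvS : v ∈ S ∧ cp U t v = v := by
            unfold cS at hv
            rcases Finset.mem_insert.mp hv with h | h
            · rw [h]
              exact ⟨hUS ht, by unfold cp; rw [if_pos ht]⟩
            · have h7 := Finset.mem_sdiff.mp h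
              exact ⟨h7.1, by unfold cp; rw [if_neg h7.2]⟩
          have hcx : cp U t x = x := by unfold cp; rw [if_neg hxU]
          obtain ⟨e, he, hee⟩ := hadj' v hvS.1 hvx
          refine ⟨e, ?_, ?_⟩
          · rw [Finset.mem_sdiff]
            refine ⟨he, ?_⟩
            intro h
            exact hxU ((Finset.mem_filter.mp h).2 x (by rw [hee]; exact Sym2.mem_mk_left _ _))
          · unfold cE
            rw [hee, Sym2.map_mk, hcx, hvS.2]

theorem BB (hTWO : TWO_stmt) (hST : ST_stmt) (hSP3 : SP3_stmt) (hTG : TG_stmt)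
    (hTSK : TSK_stmt) (hAA : AA_stmt) (hCON : CON_stmt) : BB_stmt := by
  intro V E ends S F x hG hx hadj
  exact BB_main hTWO hST hSP3 hTG hTSK hAA hCON V E S.card ends S F x rfl hG hx hadj

end

end Pool.Agent.helper97.KR
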