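import Pool.Agent.helper97.KR.Spec

/-! # Row kr:SP1 -/

set_option autoImplicit false

namespace Pool.Agent.helper97.KR

open Finset Classical

noncomputable section

theorem SP1_con (hCT1 : CT1_stmt) {V E : Type} (ends : E → Sym2 V) (S : Finset V) (T : Finset E)
    (hcon : Con ends S (T : Set E)) (U : Finset V) (hU : U ⊆ S) (t : V) (ht : t ∈ U) :
    Con (cE ends U t) (cS S U t) ((T \ ins ends T U : Finset E) : Set E) := by
  have h := hCT1 V E ends S U t (T : Set E) ht hU hcon
  have hset : {e | e ∈ (T : Set E) ∧ ¬ ∀ v ∈ ends e, v ∈ U} =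
      ((T \ ins ends T U : Finset E) : Set E) := by
    ext e
    simp only [Set.mem_ofPred_eq, Finset.mem_coe, ins, Finset.mem_sdiff, Finset.mem_filter]
    constructor
    · rintro ⟨h1, h2⟩
      exact ⟨h1, fun h3 => h2 h3.2⟩
    · rintro ⟨h1, h2⟩
      exact ⟨h1, fun h3 => h2 ⟨h1, h3⟩⟩
  rw [hset] at h
  exact h

theorem SP1_a (hMIN : MIN_stmt) (hCT1 : CT1_stmt) {V E : Type} (ends : E → Sym2 V) (S : Finset V)
    (T : Finset E) (hends : ∀ e ∈ T, ∀ v ∈ ends e, v ∈ S) (hcon : Con ends S (T : Set E))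
    (hc : T.card + 1 = S.card) (U : Finset V) (hU : U ⊆ S) (t : V) (ht : t ∈ U) :
    (ins ends T U).card + 1 ≤ U.card := by
  have h1 := SP1_con hCT1 ends S T hcon U hU t ht
  have h2 := hMIN V E (cE ends U t) (cS S U t) (T \ ins ends T U) (by
    intro e he v hv
    have heT : e ∈ T := (Finset.mem_sdiff.mp he).1
    unfold cE at hv
    rw [Sym2.mem_map] at hv
    obtain ⟨w, hw, rfl⟩ := hv
    have hwS := hends e heT w hw
    unfold cp cS
    by_cases hwU : w ∈ U
    · rw [if_pos hwU]
      exact Finset.mem_insert_self _ _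
    · rw [if_neg hwU]
      exact Finset.mem_insert_of_mem (Finset.mem_sdiff.mpr ⟨hwS, hwU⟩)) h1
  have htn : t ∉ S \ U := fun h => (Finset.mem_sdiff.mp h).2 ht
  have h3 : (cS S U t).card = (S \ U).card + 1 := by
    unfold cS
    rw [Finset.card_insert_of_notMem htn]
  have h4 := Finset.card_sdiff_add_card_eq_card hU
  have hsub : ins ends T U ⊆ T := Finset.filter_subset _ _
  have h5 := Finset.card_sdiff_add_card_eq_card hsub
  omega

theorem SP1 (hMIN : MIN_stmt) (hCT1 : CT1_stmt) : SP1_stmt := by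
  intro V E ends S T hends hcon hc U hU t ht
  refine ⟨SP1_a hMIN hCT1 ends S T hends hcon hc U hU t ht, ?_⟩
  intro heq
  refine ⟨?_, SP1_con hCT1 ends S T hcon U hU t ht⟩
  intro u0 hu0 w0 hw0
  by_contra hno
  set A : Finset V := U.filter (fun v => Relation.ReflTransGen (Jn ends (ins ends T U : Set E)) u0 v)
    with hA
  have hAU : A ⊆ U := Finset.filter_subset _ _
  have hu0A : u0 ∈ A := Finset.mem_filter.mpr ⟨hu0, Relation.ReflTransGen.refl⟩
  have hw0B : w0 ∈ U \ A := Finset.mem_sdiff.mpr ⟨hw0, fun h => hno (Finset.mem_filter.mp h).2⟩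
  have h1 := SP1_a hMIN hCT1 ends S T hends hcon hc A (hAU.trans hU) u0 hu0A
  have h2 := SP1_a hMIN hCT1 ends S T hends hcon hc (U \ A) (Finset.sdiff_subset.trans hU) w0 hw0B
  have hstep : ∀ e ∈ ins ends T U, ∀ x y, ends e = s(x, y) → x ∈ A → y ∈ A := by
    intro e he x y hxy hx
    have h3 := Finset.mem_filter.mp hx
    have h4 := (Finset.mem_filter.mp he).2 y (by rw [hxy]; exact Sym2.mem_mk_right _ _)
    exact Finset.mem_filter.mpr ⟨h4, h3.2.tail ⟨e, he, hxy⟩⟩
  have hsub : ins ends T U ⊆ ins ends T A ∪ ins ends T (U \ A) := by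
    intro e he
    have heT := (Finset.mem_filter.mp he).1
    have heU := (Finset.mem_filter.mp he).2
    obtain ⟨x, y, hxy⟩ : ∃ x y, ends e = s(x, y) := by
      induction h : ends e using Sym2.ind with
      | _ x y => exact ⟨x, y, rfl⟩
    have hxy' : ends e = s(y, x) := by rw [hxy]; exact Sym2.eq_swap
    have hxU : x ∈ U := heU x (by rw [hxy]; exact Sym2.mem_mk_left _ _)
    have hyU : y ∈ U := heU y (by rw [hxy]; exact Sym2.mem_mk_right _ _)
    rw [Finset.mem_union]
    by_cases hx : x ∈ A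
    · left
      have hy := hstep e he x y hxy hx
      refine Finset.mem_filter.mpr ⟨heT, ?_⟩
      intro v hv
      rw [hxy, Sym2.mem_iff] at hv
      rcases hv with h | h
      · rw [h]; exact hx
      · rw [h]; exact hy
    · right
      have hy : y ∉ A := fun h => hx (hstep e he y x hxy' h)
      refine Finset.mem_filter.mpr ⟨heT, ?_⟩
      intro v hv
      rw [hxy, Sym2.mem_iff] at hv
      rcases hv with h | h
      · rw [h]; exact Finset.mem_sdiff.mpr ⟨hxU, hx⟩
      · rw [h]; exact Finset.mem_sdiff.mpr ⟨hyU, hy⟩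
  have h5 := (Finset.card_le_card hsub).trans (Finset.card_union_le _ _)
  have h6 := Finset.card_sdiff_add_card_eq_card hAU
  omega

end

end Pool.Agent.helper97.KR
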